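import Pool.Agent.Work.MP_c6c039_lc.NC.All

/-!
# Simple spanning alternating paths: bounded distance from convex position

For every fixed `k` the existence of a simple spanning alternating path is decided in polynomial
time for the bicoloured point sets in general position which can be brought into convex position by
the removal of at most `k` points.  The number of points inside the convex hull of such a set is not
bounded.  `k = 0` is the theorem of Akiyama and Urrutia.

Idea.  Remove a set `D` of `k` points such that the rest `C` is in convex position.  A spanning path
is cut into the points of `D` and at most `k + 1` maximal pieces inside `C`; guess the end points of
the pieces and their order, which determines all edges with an end point in `D` and all edges between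
different pieces.  It remains to cover `C` by pairwise noncrossing pieces with prescribed end points, whose edges
are alternating and cross none of the edges found; for points in convex position this is
done by dynamic programming over the arcs: the visited points of an initial part of a piece,
together with the pieces enclosed by it, fill an arc, and the last point is an end of the arc.
-/

set_option autoImplicit false

namespace Pool.Agent.Work.MP_c6c039_lc.Kept.NearConvex

open Pool.Agent.Work.MP_c6c039_lc Pool.Agent.Work.MP_c6c039_lc.FP
  Pool.Agent.Work.MP_c6c039_lc.NC N487b59b3

/-- For every `k` there is a polynomial-time computable function `f` such that for every instance `I`
(the list of the red points and the list of the blue points, with rational coordinates) in general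
position: if `f I = true` then the set has a simple spanning alternating path; and if the set without
some at most `k` points is in convex position (`DC k I`) and has such a path, then `f I = true`. -/
theorem result : ∀ k : ℕ, ∃ f : List (ℚ × ℚ) × List (ℚ × ℚ) → Bool, N68a2faeb.IsPolyTime f ∧
    ∀ I : List (ℚ × ℚ) × List (ℚ × ℚ), GenPos I →
      (f I = true → ∃ l : List (ℝ × ℝ), IsPath (pts I.1) (pts I.2) l) ∧
      (DC k I → (∃ l : List (ℝ × ℝ), IsPath (pts I.1) (pts I.2) l) → f I = true) :=
  main_theorem

end Pool.Agent.Work.MP_c6c039_lc.Kept.NearConvex
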